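import Pool.Agent.Helper82.SG.St

/-!
# SG module SEQ
-/

set_option autoImplicit false

namespace Pool.Agent.Helper6.SG

open Finset Real MeasureTheory Pool.Agent.Helper77.Steiner Pool.Agent.Helper82.SG
open Pool.Agent.Helper18.GP (nlen NConn)
open scoped ENNReal

/-- a sequence network with edges at most `δ`, total length at most `l`, through all points of
`S` -/
private def P {E : Type} [NormedAddCommGroup E] (δ : ℝ) (S : Set E) (l : ℝ) : Prop :=
  ∃ (n : ℕ) (x : ℕ → E) (par : ℕ → ℕ),
    (∀ i, 1 ≤ i → i ≤ n → par i < i) ∧ (∀ i, 1 ≤ i → i ≤ n → dist (x (par i)) (x i) ≤ δ) ∧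
    (∀ v ∈ S, ∃ i ≤ n, x i = v) ∧ ∑ i ∈ Icc 1 n, dist (x (par i)) (x i) ≤ l

private lemma one {E : Type} [NormedAddCommGroup E] {δ : ℝ} {S : Set E} {l : ℝ} {p w : E}
    (h : P δ S l) (hp : p ∈ S) (hd : dist p w ≤ δ) : P δ (insert w S) (l + dist p w) := by
  obtain ⟨n, x, par, h1, h2, h3, h4⟩ := h
  obtain ⟨k, hk, hxk⟩ := h3 p hp
  have hne : ∀ i, i ≤ n → (i : ℕ) ≠ n + 1 := fun i hi => by omega
  have hxu : ∀ i, i ≤ n → Function.update x (n + 1) w i = x i := fun i hi =>
    Function.update_of_ne (hne i hi) _ _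
  have hpu : ∀ i, i ≤ n → Function.update par (n + 1) k i = par i := fun i hi =>
    Function.update_of_ne (hne i hi) _ _
  have hold : ∀ i, 1 ≤ i → i ≤ n →
      dist (Function.update x (n + 1) w (Function.update par (n + 1) k i))
        (Function.update x (n + 1) w i) = dist (x (par i)) (x i) := by
    intro i hi1 hi2
    rw [hpu i hi2, hxu i hi2, hxu (par i) (by have := h1 i hi1 hi2; omega)]
  have hnew : dist (Function.update x (n + 1) w (Function.update par (n + 1) k (n + 1)))
        (Function.update x (n + 1) w (n + 1)) = dist p w := by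
    rw [Function.update_self, Function.update_self, hxu k hk, hxk]
  refine ⟨n + 1, Function.update x (n + 1) w, Function.update par (n + 1) k, ?_, ?_, ?_, ?_⟩
  · intro i hi1 hi2
    rcases Nat.lt_or_ge n i with hc | hc
    · have : i = n + 1 := by omega
      subst this
      rw [Function.update_self]
      omega
    · rw [hpu i hc]
      exact h1 i hi1 hc
  · intro i hi1 hi2
    rcases Nat.lt_or_ge n i with hc | hc
    · have : i = n + 1 := by omega
      subst this
      rw [hnew]
      exact hd
    · rw [hold i hi1 hc]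
      exact h2 i hi1 hc
  · intro v hv
    rcases hv with hv | hv
    · exact ⟨n + 1, le_rfl, by rw [Function.update_self, hv]⟩
    · obtain ⟨i, hi, hxi⟩ := h3 v hv
      exact ⟨i, by omega, by rw [hxu i hi, hxi]⟩
  · rw [Finset.sum_Icc_succ_top (by omega), hnew]
    refine add_le_add ?_ le_rfl
    refine le_trans (le_of_eq ?_) h4
    refine Finset.sum_congr rfl fun i hi => ?_
    rw [Finset.mem_Icc] at hi
    exact hold i hi.1 hi.2

private lemma P.mono {E : Type} [NormedAddCommGroup E] {δ : ℝ} {S T : Set E} {l : ℝ}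
    (h : P δ S l) (hT : T ⊆ S) : P δ T l := by
  obtain ⟨n, x, par, h1, h2, h3, h4⟩ := h
  exact ⟨n, x, par, h1, h2, fun v hv => h3 v (hT hv), h4⟩

private lemma many {E : Type} [NormedAddCommGroup E] [NormedSpace ℝ E] {δ : ℝ} (m : ℕ) :
    ∀ {S : Set E} {l : ℝ} {p w : E}, P δ S l → p ∈ S → dist p w ≤ ((m : ℝ) + 1) * δ →
      P δ (insert w S) (l + dist p w) := by
  induction m with
  | zero =>
    intro S l p w h hp hd
    refine one h hp ?_
    simpa using hd
  | succ m ih =>
    intro S l p w h hp hd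
    have hm : (0 : ℝ) ≤ m := Nat.cast_nonneg m
    have hpos : (0 : ℝ) < (m : ℝ) + 1 + 1 := by positivity
    push_cast at hd
    have hdd : dist p w / ((m : ℝ) + 1 + 1) ≤ δ := by
      rw [div_le_iff₀ hpos]
      linarith
    have hd1 : dist p (AffineMap.lineMap p w (((m : ℝ) + 1) / ((m : ℝ) + 1 + 1)))
        = ((m : ℝ) + 1) * (dist p w / ((m : ℝ) + 1 + 1)) := by
      rw [dist_left_lineMap, Real.norm_of_nonneg (by positivity)]
      field_simp
    have hd2 : dist (AffineMap.lineMap p w (((m : ℝ) + 1) / ((m : ℝ) + 1 + 1))) w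
        = dist p w / ((m : ℝ) + 1 + 1) := by
      rw [dist_lineMap_right]
      have : (1 : ℝ) - ((m : ℝ) + 1) / ((m : ℝ) + 1 + 1) = 1 / ((m : ℝ) + 1 + 1) := by
        field_simp
        ring
      rw [this, Real.norm_of_nonneg (by positivity)]
      field_simp
    have h1 := ih h hp (w := AffineMap.lineMap p w (((m : ℝ) + 1) / ((m : ℝ) + 1 + 1)))
      (by rw [hd1]; exact mul_le_mul_of_nonneg_left hdd (by positivity))
    have h2 := one h1 (w := w) (Set.mem_insert _ _) (by rw [hd2]; exact hdd)
    have hl : l + dist p (AffineMap.lineMap p w (((m : ℝ) + 1) / ((m : ℝ) + 1 + 1)))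
        + dist (AffineMap.lineMap p w (((m : ℝ) + 1) / ((m : ℝ) + 1 + 1))) w
        = l + dist p w := by
      rw [hd1, hd2]
      field_simp
      ring
    rw [hl] at h2
    refine h2.mono ?_
    intro v hv
    rcases hv with hv | hv
    · exact Or.inl hv
    · exact Or.inr (Or.inr hv)

/-- SEQ. -/
theorem hSEQ : StSEQ := by
  intro E _ _ V l h δ hδ
  have key : P δ (V : Set E) l := by
    induction h with
    | single v =>
      refine ⟨0, fun _ => v, fun _ => 0, fun i h1 h2 => by omega, fun i h1 h2 => by omega, ?_, ?_⟩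
      · intro u hu
        have hu' : u = v := by simpa using hu
        exact ⟨0, le_rfl, hu'.symm⟩
      · simp
    | @step V l h p hp w ih =>
      obtain ⟨m, hm⟩ := exists_nat_ge (dist p w / δ)
      have hd : dist p w ≤ ((m : ℝ) + 1) * δ := by
        rw [div_le_iff₀ hδ] at hm
        nlinarith
      have := many m ih (Finset.mem_coe.mpr hp) hd
      refine this.mono ?_
      intro v hv
      simpa using hv
  obtain ⟨n, x, par, h1, h2, h3, h4⟩ := key
  exact ⟨n, x, par, h1, h2, fun v hv => h3 v (Finset.mem_coe.mpr hv), h4⟩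

end Pool.Agent.Helper6.SG
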